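import Mathlib
import Pool.Agent.H12.ThinDef
import Pool.Agent.H12.ThinLemmas
import Pool.Agent.H12.ThinDisc
import Pool.Agent.H12.ThinPseudo

set_option autoImplicit false

namespace Pool.Agent.Results.MP_52f683_gt.ThinDisconnected

open H12Thin

theorem result (S : Type) [TopologicalSpace S] [T1Space S] [Infinite S] (hS : Thin S)
    (hdis : ¬ PreconnectedSpace S) :
    T2Space S ∧
    (∀ x : S, ∃ N : Set S, IsOpen N ∧ x ∈ N ∧
      ∀ O : Set S, IsOpen O → O ⊆ N → IsOpen (closure O)) ∧
    (∀ (p : S) (V : ℕ → Set S), (∀ n, IsOpen (V n) ∧ p ∈ V n) →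
      (⋂ n, closure (V n)) ≠ {p}) ∧
    ¬ TopologicalSpace.SeparableSpace S := by
  rw [preconnectedSpace_iff_clopen] at hdis
  push Not at hdis
  obtain ⟨C, hC, hC1, hC2⟩ := hdis
  have hne : C.Nonempty := hC1
  have hne' : Cᶜ.Nonempty := Set.nonempty_compl.2 hC2
  have hT2 : T2Space S := hausdorff_of_disjoint hS C Cᶜ hC.isOpen hC.compl.isOpen hne hne'
    disjoint_compl_right
  refine ⟨hT2, fun x => locally_ed hS C hC.isOpen hC.isClosed hne hne' x, ?_, ?_⟩
  · intro p V hV h
    exact no_gdelta hS C hC.isOpen hC.isClosed hne hne' p V (fun n => (hV n).1)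
      (fun n => (hV n).2) h
  · intro hsep
    have := separable_finite hS
    exact not_finite S

end Pool.Agent.Results.MP_52f683_gt.ThinDisconnected
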