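import Mathlib
import Pool.Agent.H12.ThinDef
import Pool.Agent.H12.ThinLemmas

set_option autoImplicit false

namespace Pool.Agent.Results.MP_52f683_gt.ThinStructure

open H12Thin

theorem result :
    (∀ (S : Type) [TopologicalSpace S], Thin S →
      ∃ (T I : Type) (_ : TopologicalSpace T) (_ : TopologicalSpace I),
        T1Space T ∧ Thin T ∧ IndiscreteTopology I ∧ Nonempty I ∧
        (Infinite S → Finite I ∧ Infinite T) ∧ Nonempty (S ≃ₜ T × I)) ∧
    (∀ (S : Type) [TopologicalSpace S] [Finite S], Thin S →
      ∃ (T I : Type) (_ : TopologicalSpace T) (_ : TopologicalSpace I),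
        Finite T ∧ Finite I ∧ DiscreteTopology T ∧ IndiscreteTopology I ∧
        Nonempty (S ≃ₜ T × I)) ∧
    (∀ (S : Type) [TopologicalSpace S] [T1Space S], Thin S →
      T2Space S ∨ ∀ U V : Set S, IsOpen U → IsOpen V → U.Nonempty → V.Nonempty →
        (U ∩ V).Nonempty) ∧
    (∀ (S : Type) [TopologicalSpace S] [R1Space S] [TopologicalSpace.SeparableSpace S],
      Thin S → Finite S) ∧
    (∀ (S : Type) [TopologicalSpace S] [R1Space S] [FirstCountableTopology S],
      Thin S → Finite S) ∧
    (∀ (S : Type) [TopologicalSpace S] [T2Space S], Thin S → ∀ (D : Set S) (p : S),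
      D.Infinite → ¬ ∀ U : Set S, IsOpen U → p ∈ U → (D \ U).Finite) := by
  refine ⟨?_, ?_, ?_, ?_, ?_, ?_⟩
  · intro S _ hS
    rcases isEmpty_or_nonempty S with hE | ⟨⟨x⟩⟩
    · refine ⟨S, PUnit, inferInstance, inferInstance, ⟨fun x => (hE.false x).elim⟩, hS,
        ⟨Subsingleton.elim _ _⟩, inferInstance, ?_, ⟨(Homeomorph.prodPUnit S).symm⟩⟩
      intro hinf
      exact (hE.false (Classical.arbitrary S)).elim
    · obtain ⟨I, tI, hI, hIn, hIf, he⟩ := decomp_homeo hS x
      have := r0_of_thin hS
      refine ⟨SeparationQuotient S, I, inferInstance, tI,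
        SeparationQuotient.t1Space_iff.2 this, quotient_thin hS, hI, hIn, ?_, he⟩
      intro hinf
      exact ⟨hIf hinf, quotient_infinite hS⟩
  · intro S _ _ hS
    rcases isEmpty_or_nonempty S with hE | ⟨⟨x⟩⟩
    · refine ⟨S, PUnit, inferInstance, inferInstance, inferInstance, inferInstance, inferInstance,
        ⟨Subsingleton.elim _ _⟩, ⟨(Homeomorph.prodPUnit S).symm⟩⟩
    · obtain ⟨I, tI, hI, hIn, hIf, ⟨e⟩⟩ := decomp_homeo hS x
      have h0 := r0_of_thin hS
      have h1 : T1Space (SeparationQuotient S) := SeparationQuotient.t1Space_iff.2 h0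
      have hQ : Finite (SeparationQuotient S) :=
        Finite.of_surjective _ SeparationQuotient.surjective_mk
      have hIfin : Finite I := by
        have : Finite (SeparationQuotient S × I) := Finite.of_equiv _ e.toEquiv
        exact Finite.of_surjective (Prod.snd : SeparationQuotient S × I → I)
          (fun i => ⟨(SeparationQuotient.mk x, i), rfl⟩)
      exact ⟨SeparationQuotient S, I, inferInstance, tI, hQ, hIfin, inferInstance, hI, ⟨e⟩⟩
  · intro S _ _ hS
    by_cases h : ∀ U V : Set S, IsOpen U → IsOpen V → U.Nonempty → V.Nonempty → (U ∩ V).Nonempty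
    · exact Or.inr h
    · left
      push Not at h
      obtain ⟨U, V, hU, hV, hUn, hVn, hUV⟩ := h
      exact hausdorff_of_disjoint hS U V hU hV hUn hVn (Set.disjoint_iff_inter_eq_empty.2 hUV)
  · intro S _ _ _ hS
    exact separable_finite hS
  · intro S _ _ _ hS
    exact firstCountable_finite hS
  · intro S _ _ hS D p hD hconv
    exact no_convergent hS D hD p hconv

end Pool.Agent.Results.MP_52f683_gt.ThinStructure
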